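import Pool.Agent.Helper57.BI.Defs

/-! Block BI-5: products of band-limited sequences are band-limited. -/

open MeasureTheory Complex Filter Topology

namespace Pool.Agent.Helper57.BI

namespace MulAux

lemma summable_ee {a : ℤ → ℂ} (ha : Summable a) (θ : ℝ) :
    Summable (fun l : ℤ => a l * ee (l * θ)) := by
  rw [← summable_norm_iff] at ha ⊢
  refine ha.congr fun l => ?_
  rw [norm_mul, norm_ee, mul_one]

/-- `(l, m) ↦ (l, m - l)` -/
def eqv : ℤ × ℤ ≃ ℤ × ℤ where
  toFun p := (p.1, p.2 - p.1)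
  invFun p := (p.1, p.2 + p.1)
  left_inv p := by ext <;> simp
  right_inv p := by ext <;> simp

lemma summable_conv {F G : ℤ → ℂ} (hF : Summable F) (hG : Summable G) :
    Summable (fun p : ℤ × ℤ => F p.1 * G (p.2 - p.1)) := by
  have h := summable_mul_of_summable_norm hF.norm hG.norm
  exact (eqv.summable_iff (f := fun p : ℤ × ℤ => F p.1 * G p.2)).2 h

lemma summable_conv' {F G : ℤ → ℂ} (hF : Summable F) (hG : Summable G) :
    Summable (fun p : ℤ × ℤ => F p.2 * G (p.1 - p.2)) := by
  exact (Equiv.prodComm ℤ ℤ).summable_iff.2 (summable_conv hF hG)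

lemma summable_conv_seq {F G : ℤ → ℂ} (hF : Summable F) (hG : Summable G) :
    Summable (fun m : ℤ => ∑' l : ℤ, F l * G (m - l)) :=
  (summable_conv' hF hG).prod

lemma tsum_conv {F G : ℤ → ℂ} (hF : Summable F) (hG : Summable G) :
    ∑' m : ℤ, ∑' l : ℤ, F l * G (m - l) = (∑' l, F l) * ∑' k, G k := by
  rw [← Summable.tsum_comm (f := fun m l => F l * G (m - l)) (summable_conv' hF hG)]
  have h : ∀ l : ℤ, ∑' m : ℤ, F l * G (m - l) = F l * ∑' k, G k := by
    intro l
    rw [tsum_mul_left]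
    congr 1
    exact (Equiv.subRight l).tsum_eq G
  simp_rw [h]
  rw [tsum_mul_right]

lemma sym_conv {c b : ℤ → ℂ} (hc : Summable c) (hb : Summable b) (θ : ℝ) :
    sym (fun m => ∑' l : ℤ, c l * b (m - l)) θ = sym c θ * sym b θ := by
  unfold sym
  rw [← tsum_conv (summable_ee hc θ) (summable_ee hb θ)]
  refine tsum_congr fun m => ?_
  rw [← tsum_mul_right]
  refine tsum_congr fun l => ?_
  have : ee (m * θ) = ee (l * θ) * ee (((m - l : ℤ) : ℝ) * θ) := by
    rw [← ee_add]; congr 1; push_cast; ring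
  rw [this]
  ring

lemma sym_mod {a : ℤ → ℂ} (θ t : ℝ) :
    sym (fun l => a l * ee (l * θ)) t = sym a (θ + t) := by
  unfold sym
  refine tsum_congr fun l => ?_
  rw [mul_assoc, ← ee_add]
  congr 2
  ring

end MulAux

open MulAux in
/-- BI-5: product rule, with BI-1' (`sym_inj`) and BI-3 (`exists_kernel`) as hypotheses. -/
theorem BL_mul_of
    (sym_inj : ∀ {a : ℤ → ℂ}, Summable a → (∀ θ : ℝ, |θ| ≤ 1 / 2 → sym a θ = 0) →
      ∀ l : ℤ, a l = 0)
    (exists_kernel : ∀ {r r' : ℝ}, 0 < r → r < r' → r' < 1 / 2 →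
      ∃ a : ℤ → ℝ, Summable a ∧ (∀ l, a (-l) = a l) ∧
        (∀ θ : ℝ, |θ| ≤ r → sym (fun l => (a l : ℂ)) θ = 1) ∧
        (∀ θ : ℝ, r' ≤ |θ| → |θ| ≤ 1 / 2 → sym (fun l => (a l : ℂ)) θ = 0))
    {r r' r'' : ℝ} (hr : 0 ≤ r) (hr' : 0 < r') (h : r + r' < r'') (h'' : r'' < 1 / 2)
    {φ γ : ℤ → ℂ} (hφ : ∃ C, ∀ n, ‖φ n‖ ≤ C) (hγ : ∃ C, ∀ n, ‖γ n‖ ≤ C)
    (h1 : BL r φ) (h2 : BL r' γ) : BL r'' (fun n => φ n * γ n) := by
  intro a ha hs
  obtain ⟨C, hC⟩ := hφ
  obtain ⟨D, hD⟩ := hγ
  obtain ⟨β', hβs, hβe, hβ1, hβ0⟩ := exists_kernel (r := r') (r' := r'' - r) hr' (by linarith)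
    (by linarith)
  set β : ℤ → ℂ := fun l => (β' l : ℂ) with hβ
  have hβsum : Summable β := by
    have := hβs.norm
    rw [← summable_norm_iff]
    refine this.congr fun l => ?_
    simp [hβ]
  -- reproducing property of `γ`
  have hrep : ∀ l : ℤ, γ l = ∑' m : ℤ, β (m - l) * γ m := by
    intro l
    have hb1 : Summable (fun m : ℤ => β (m - l)) := (Equiv.subRight l).summable_iff.2 hβsum
    have hb2 : HasSum (fun m : ℤ => if m = l then (1 : ℂ) else 0) 1 := hasSum_ite_eq l 1
    have hb3 : Summable (fun m : ℤ => β (m - l) - if m = l then (1 : ℂ) else 0) :=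
      hb1.sub hb2.summable
    have hz := h2 (fun m : ℤ => β (m - l) - if m = l then (1 : ℂ) else 0) hb3 (by
      intro θ hθ
      unfold sym
      have e1 : ∀ m : ℤ, (β (m - l) - if m = l then (1 : ℂ) else 0) * ee (m * θ)
          = ee (l * θ) * (β (m - l) * ee (((m - l : ℤ) : ℝ) * θ))
            - (if m = l then ee (l * θ) else 0) := by
        intro m
        have : ee (m * θ) = ee (l * θ) * ee (((m - l : ℤ) : ℝ) * θ) := by
          rw [← ee_add]; congr 1; push_cast; ring
        rw [sub_mul]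
        by_cases hm : m = l
        · subst hm
          rw [if_pos rfl, if_pos rfl, one_mul, sub_self, Int.cast_zero, zero_mul, ee_zero]
          ring
        · rw [if_neg hm, if_neg hm, zero_mul, sub_zero, sub_zero, this]
          ring
      simp_rw [e1]
      have s1 : Summable (fun m : ℤ => ee (l * θ) * (β (m - l) * ee (((m - l : ℤ) : ℝ) * θ))) :=
        (((Equiv.subRight l).summable_iff (f := fun k : ℤ => β k * ee (k * θ))).2
          (summable_ee hβsum θ)).mul_left _
      have s2 : HasSum (fun m : ℤ => if m = l then ee (l * θ) else 0) (ee (l * θ)) :=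
        hasSum_ite_eq l _
      rw [s1.tsum_sub s2.summable, s2.tsum_eq, tsum_mul_left]
      have s3 : ∑' m : ℤ, β (m - l) * ee (((m - l : ℤ) : ℝ) * θ) = sym β θ :=
        (Equiv.subRight l).tsum_eq (fun k : ℤ => β k * ee (k * θ))
      rw [s3, hβ1 θ hθ, mul_one, sub_self])
    have t1 : Summable (fun m : ℤ => β (m - l) * γ m) := by
      refine Summable.of_norm_bounded (g := fun m => ‖β (m - l)‖ * D) (hb1.norm.mul_right D)
        fun m => ?_
      rw [norm_mul]
      exact mul_le_mul_of_nonneg_left (hD m) (norm_nonneg _)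
    have t2 : HasSum (fun m : ℤ => if m = l then γ l else 0) (γ l) := hasSum_ite_eq l _
    have e2 : ∀ m : ℤ, (β (m - l) - if m = l then (1 : ℂ) else 0) * γ m
        = β (m - l) * γ m - (if m = l then γ l else 0) := by
      intro m
      by_cases hm : m = l
      · subst hm; simp [sub_mul]
      · simp [hm]
    simp_rw [e2] at hz
    rw [t1.tsum_sub t2.summable, t2.tsum_eq, sub_eq_zero] at hz
    exact hz.symm
  -- for fixed `m` the inner sum vanishes
  have hin : ∀ m : ℤ, ∑' l : ℤ, a l * β (m - l) * φ l = 0 := by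
    intro m
    have hsum : ∀ m : ℤ, Summable (fun l : ℤ => a l * β (m - l)) := by
      intro m
      obtain ⟨K, hK⟩ : ∃ K, ∀ k, ‖β k‖ ≤ K := by
        obtain ⟨K, hK⟩ := (hβsum.norm).tendsto_cofinite_zero.bddAbove_range_of_cofinite
        exact ⟨K, fun k => hK ⟨k, rfl⟩⟩
      refine Summable.of_norm_bounded (g := fun l => ‖a l‖ * K) (ha.norm.mul_right K)
        fun l => ?_
      rw [norm_mul]
      exact mul_le_mul_of_nonneg_left (hK _) (norm_nonneg _)
    refine h1 (fun l => a l * β (m - l)) (hsum m) ?_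
    intro θ hθ
    -- convolution of `a l * ee (l θ)` with `β`
    have hc := summable_ee ha θ
    have hconv : ∀ m : ℤ, ∑' l : ℤ, (a l * ee (l * θ)) * β (m - l) = 0 := by
      refine sym_inj (a := fun m => ∑' l : ℤ, (a l * ee (l * θ)) * β (m - l))
        (summable_conv_seq hc hβsum) ?_
      intro t ht
      rw [sym_conv hc hβsum, sym_mod]
      by_cases hcase : r'' - r ≤ |t|
      · rw [hβ0 t hcase ht, mul_zero]
      · push Not at hcase
        rw [hs (θ + t) ((abs_add_le θ t).trans (by linarith)), zero_mul]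
    have := hconv m
    unfold sym
    rw [← this]
    refine tsum_congr fun l => ?_
    ring
  -- exchange of the sums
  have hF : Summable (fun l : ℤ => a l * φ l) := by
    refine Summable.of_norm_bounded (g := fun l => ‖a l‖ * C) (ha.norm.mul_right C) fun l => ?_
    rw [norm_mul]
    exact mul_le_mul_of_nonneg_left (hC l) (norm_nonneg _)
  have hpair : Summable (fun p : ℤ × ℤ => (a p.1 * φ p.1) * β (p.2 - p.1) * γ p.2) := by
    have h0 := (summable_conv hF hβsum).norm
    refine Summable.of_norm_bounded (g := fun p : ℤ × ℤ =>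
      ‖(a p.1 * φ p.1) * β (p.2 - p.1)‖ * D) (h0.mul_right D) fun p => ?_
    rw [norm_mul]
    exact mul_le_mul_of_nonneg_left (hD _) (norm_nonneg _)
  have e3 : ∀ l : ℤ, a l * (φ l * γ l) = ∑' m : ℤ, (a l * φ l) * β (m - l) * γ m := by
    intro l
    conv_lhs => rw [hrep l]
    rw [← mul_assoc, ← tsum_mul_left]
    refine tsum_congr fun m => ?_
    ring
  simp_rw [e3]
  rw [Summable.tsum_comm (f := fun m l => (a l * φ l) * β (m - l) * γ m)
    ((Equiv.prodComm ℤ ℤ).summable_iff.2 hpair)]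
  have e4 : ∀ m : ℤ, ∑' l : ℤ, (a l * φ l) * β (m - l) * γ m = 0 := by
    intro m
    rw [tsum_mul_right]
    have : ∑' l : ℤ, (a l * φ l) * β (m - l) = ∑' l : ℤ, a l * β (m - l) * φ l :=
      tsum_congr fun l => by ring
    rw [this, hin m, zero_mul]
  simp_rw [e4]
  exact tsum_zero

end Pool.Agent.Helper57.BI
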