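import Pool.Agent.Helper57.BI.Defs

/-! Block BI-4. The kernel is explicit: `a l = (cos 2πδl - cos 4πδl) / (2π²δl²)`, `a 0 = 3δ`, the
Fourier coefficients of a trapezoid; its symbol is computed from the Fourier series of the Bernoulli
polynomial `B₂`. -/

open MeasureTheory Complex Filter Topology

namespace Pool.Agent.Helper57.BI

namespace KS

/-- the numerator -/
noncomputable def N (δ : ℝ) (l : ℤ) : ℝ :=
  Real.cos (2 * Real.pi * δ * l) - Real.cos (4 * Real.pi * δ * l)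

/-- the kernel -/
noncomputable def ker (δ : ℝ) (l : ℤ) : ℝ :=
  N δ l / (2 * Real.pi ^ 2 * δ * (l : ℝ) ^ 2) + (if l = 0 then 3 * δ else 0)

lemma N_neg (δ : ℝ) (l : ℤ) : N δ (-l) = N δ l := by
  unfold N
  push_cast
  rw [mul_neg, mul_neg, Real.cos_neg, Real.cos_neg]

lemma ker_neg (δ : ℝ) (l : ℤ) : ker δ (-l) = ker δ l := by
  unfold ker
  rw [N_neg]
  push_cast
  rw [neg_sq]
  simp only [neg_eq_zero]

lemma ker_of_ne (δ : ℝ) {l : ℤ} (hl : l ≠ 0) :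
    ker δ l = N δ l / (2 * Real.pi ^ 2 * δ * (l : ℝ) ^ 2) := by
  unfold ker
  rw [if_neg hl, add_zero]

lemma ker_zero (δ : ℝ) : ker δ 0 = 3 * δ := by
  unfold ker
  simp

lemma N_eq (δ : ℝ) (l : ℤ) :
    N δ l = 2 * Real.sin (3 * (Real.pi * δ * l)) * Real.sin (Real.pi * δ * l) := by
  unfold N
  have h := Real.cos_sub_cos (2 * Real.pi * δ * l) (4 * Real.pi * δ * l)
  rw [h]
  have e1 : (2 * Real.pi * δ * (l : ℝ) + 4 * Real.pi * δ * l) / 2 = 3 * (Real.pi * δ * l) := by ring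
  have e2 : (2 * Real.pi * δ * (l : ℝ) - 4 * Real.pi * δ * l) / 2 = -(Real.pi * δ * l) := by ring
  rw [e1, e2, Real.sin_neg]
  ring

lemma N_le (δ : ℝ) (hδ : 0 < δ) (l : ℤ) : |N δ l| ≤ 2 * (Real.pi * δ * |(l : ℝ)|) := by
  rw [N_eq, abs_mul, abs_mul]
  have h1 : |Real.sin (3 * (Real.pi * δ * l))| ≤ 1 := Real.abs_sin_le_one _
  have h2 : |Real.sin (Real.pi * δ * l)| ≤ |Real.pi * δ * l| := Real.abs_sin_le_abs
  have h3 : |Real.pi * δ * (l : ℝ)| = Real.pi * δ * |(l : ℝ)| := by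
    rw [abs_mul, abs_of_pos (mul_pos Real.pi_pos hδ)]
  rw [h3] at h2
  have h4 : |(2 : ℝ)| = 2 := abs_of_pos (by norm_num)
  rw [h4]
  have := abs_nonneg (Real.sin (Real.pi * δ * l))
  nlinarith

lemma N_le_sq (δ : ℝ) (l : ℤ) :
    |N δ l| ≤ 6 * Real.pi ^ 2 * δ ^ 2 * (l : ℝ) ^ 2 := by
  rw [N_eq, abs_mul, abs_mul]
  have h1 : |Real.sin (3 * (Real.pi * δ * l))| ≤ |3 * (Real.pi * δ * l)| := Real.abs_sin_le_abs
  have h2 : |Real.sin (Real.pi * δ * l)| ≤ |Real.pi * δ * l| := Real.abs_sin_le_abs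
  have h4 : |(2 : ℝ)| = 2 := abs_of_pos (by norm_num)
  rw [h4]
  have h5 := mul_le_mul h1 h2 (abs_nonneg _) (abs_nonneg _)
  rw [← abs_mul (3 * (Real.pi * δ * (l : ℝ)))] at h5
  have h6 : |3 * (Real.pi * δ * (l : ℝ)) * (Real.pi * δ * l)|
      = 3 * Real.pi ^ 2 * δ ^ 2 * (l : ℝ) ^ 2 := by
    rw [abs_of_nonneg]
    · ring
    · have : 3 * (Real.pi * δ * (l : ℝ)) * (Real.pi * δ * l) = 3 * (Real.pi * δ * l) ^ 2 := by ring
      rw [this]
      positivity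
  rw [h6] at h5
  calc _ = 2 * (|Real.sin (3 * (Real.pi * δ * l))| * |Real.sin (Real.pi * δ * l)|) := by ring
    _ ≤ 2 * (3 * Real.pi ^ 2 * δ ^ 2 * (l : ℝ) ^ 2) := by linarith
    _ = _ := by ring

lemma ker_le (δ : ℝ) (hδ : 0 < δ) (l : ℤ) : |ker δ l| ≤ 3 * δ := by
  by_cases hl : l = 0
  · subst hl
    rw [ker_zero, abs_of_pos (by positivity)]
  · rw [ker_of_ne δ hl, abs_div]
    have hl' : (l : ℝ) ≠ 0 := by exact_mod_cast hl
    have hl2 : 0 < (l : ℝ) ^ 2 := by positivity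
    have hp : 0 < Real.pi := Real.pi_pos
    have hd : |2 * Real.pi ^ 2 * δ * (l : ℝ) ^ 2| = 2 * Real.pi ^ 2 * δ * (l : ℝ) ^ 2 :=
      abs_of_pos (by positivity)
    rw [hd, div_le_iff₀ (by positivity)]
    calc _ ≤ _ := N_le_sq δ l
      _ = _ := by ring

lemma N_diff (δ : ℝ) (hδ : 0 < δ) (l : ℤ) : |N δ (l + 1) - N δ l| ≤ 6 * Real.pi * δ := by
  unfold N
  have hp : 0 < Real.pi := Real.pi_pos
  have h1 : |Real.cos (2 * Real.pi * δ * ((l + 1 : ℤ) : ℝ)) - Real.cos (2 * Real.pi * δ * l)|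
      ≤ 2 * Real.pi * δ := by
    refine le_trans (Real.abs_cos_sub_cos_le _ _) ?_
    push_cast
    rw [show 2 * Real.pi * δ * ((l : ℝ) + 1) - 2 * Real.pi * δ * l = 2 * Real.pi * δ by ring,
      abs_of_pos (by positivity)]
  have h2 : |Real.cos (4 * Real.pi * δ * ((l + 1 : ℤ) : ℝ)) - Real.cos (4 * Real.pi * δ * l)|
      ≤ 4 * Real.pi * δ := by
    refine le_trans (Real.abs_cos_sub_cos_le _ _) ?_
    push_cast
    rw [show 4 * Real.pi * δ * ((l : ℝ) + 1) - 4 * Real.pi * δ * l = 4 * Real.pi * δ by ring,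
      abs_of_pos (by positivity)]
  have h3 : ∀ x y z w A B : ℝ, |x - y| ≤ A → |z - w| ≤ B → |x - z - (y - w)| ≤ A + B := by
    intro x y z w A B ha hb
    rw [abs_le] at *
    constructor <;> linarith [ha.1, ha.2, hb.1, hb.2]
  refine le_trans (h3 _ _ _ _ _ _ h1 h2) ?_
  linarith

lemma ker_diff (δ : ℝ) (hδ : 0 < δ) (hδ1 : δ ≤ 1) (l : ℤ) :
    |ker δ (l + 1) - ker δ l| ≤ 6 * (1 / ((l : ℝ) + 1) ^ 2) + 6 * (1 / (l : ℝ) ^ 2) := by
  have hp : 0 < Real.pi := Real.pi_pos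
  have hp3 : 3 < Real.pi := Real.pi_gt_three
  have hcrude : |ker δ (l + 1) - ker δ l| ≤ 6 := by
    have h1 := ker_le δ hδ (l + 1)
    have h2 := ker_le δ hδ l
    rw [abs_le] at *
    constructor <;> linarith [h1.1, h1.2, h2.1, h2.2]
  by_cases h0 : l = 0
  · subst h0
    simpa using hcrude
  by_cases h1 : l + 1 = 0
  · have : l = -1 := by omega
    subst this
    simpa using hcrude
  rw [ker_of_ne δ h0, ker_of_ne δ h1]
  have hx : (l : ℝ) ≠ 0 := by exact_mod_cast h0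
  have hy : (l : ℝ) + 1 ≠ 0 := by exact_mod_cast h1
  set x : ℝ := (l : ℝ) with hxdef
  have e0 : (((l + 1 : ℤ)) : ℝ) = x + 1 := by push_cast; rfl
  rw [e0]
  have hN1 := N_diff δ hδ l
  have hN2 := N_le δ hδ l
  set A := N δ (l + 1)
  set B := N δ l
  have hx2 : 0 < x ^ 2 := by positivity
  have hy2 : 0 < (x + 1) ^ 2 := by positivity
  have key : A / (2 * Real.pi ^ 2 * δ * (x + 1) ^ 2) - B / (2 * Real.pi ^ 2 * δ * x ^ 2)
      = (1 / (2 * Real.pi ^ 2 * δ)) * ((A - B) * (1 / (x + 1) ^ 2)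
        - B * ((2 * x + 1) / (x ^ 2 * (x + 1) ^ 2))) := by
    field_simp
    ring
  rw [key, abs_mul, abs_of_pos (show (0:ℝ) < 1 / (2 * Real.pi ^ 2 * δ) by positivity)]
  have hb1 : |(A - B) * (1 / (x + 1) ^ 2)| ≤ 6 * Real.pi * δ * (1 / (x + 1) ^ 2) := by
    rw [abs_mul, abs_of_pos (show (0:ℝ) < 1 / (x + 1) ^ 2 by positivity)]
    exact mul_le_mul_of_nonneg_right hN1 (by positivity)
  have hb2 : |B * ((2 * x + 1) / (x ^ 2 * (x + 1) ^ 2))|
      ≤ 2 * Real.pi * δ * (2 * (1 / (x + 1) ^ 2) + 1 / x ^ 2) := by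
    rw [abs_mul, abs_div, abs_of_pos (show (0:ℝ) < x ^ 2 * (x + 1) ^ 2 by positivity)]
    have s1 : |x| * |2 * x + 1| ≤ 2 * x ^ 2 + (x + 1) ^ 2 := by
      have t1 : |2 * x + 1| ≤ |x| + |x + 1| := by
        have : 2 * x + 1 = x + (x + 1) := by ring
        rw [this]; exact abs_add_le _ _
      have t2 : |x| * |x| = x ^ 2 := by rw [← abs_mul, abs_of_nonneg (mul_self_nonneg x)]; ring
      have t3 : |x + 1| * |x + 1| = (x + 1) ^ 2 := by
        rw [← abs_mul, abs_of_nonneg (mul_self_nonneg _)]; ring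
      nlinarith [abs_nonneg x, abs_nonneg (x + 1), sq_nonneg (|x| - |x + 1|)]
    have s2 : |B| * (|2 * x + 1| / (x ^ 2 * (x + 1) ^ 2))
        ≤ 2 * (Real.pi * δ * |x|) * (|2 * x + 1| / (x ^ 2 * (x + 1) ^ 2)) :=
      mul_le_mul_of_nonneg_right hN2 (by positivity)
    refine le_trans s2 ?_
    have s3 : 2 * (Real.pi * δ * |x|) * (|2 * x + 1| / (x ^ 2 * (x + 1) ^ 2))
        = 2 * Real.pi * δ * ((|x| * |2 * x + 1|) / (x ^ 2 * (x + 1) ^ 2)) := by ring
    have s4 : (2 * x ^ 2 + (x + 1) ^ 2) / (x ^ 2 * (x + 1) ^ 2)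
        = 2 * (1 / (x + 1) ^ 2) + 1 / x ^ 2 := by
      field_simp
    rw [s3, ← s4]
    gcongr
  have hb3 : |(A - B) * (1 / (x + 1) ^ 2) - B * ((2 * x + 1) / (x ^ 2 * (x + 1) ^ 2))|
      ≤ 6 * Real.pi * δ * (1 / (x + 1) ^ 2)
        + 2 * Real.pi * δ * (2 * (1 / (x + 1) ^ 2) + 1 / x ^ 2) := by
    refine le_trans (abs_sub _ _) (add_le_add hb1 hb2)
  have hb4 := mul_le_mul_of_nonneg_left hb3 (show (0:ℝ) ≤ 1 / (2 * Real.pi ^ 2 * δ) by positivity)
  refine le_trans hb4 ?_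
  have hb5 : 1 / (2 * Real.pi ^ 2 * δ) * (6 * Real.pi * δ * (1 / (x + 1) ^ 2)
        + 2 * Real.pi * δ * (2 * (1 / (x + 1) ^ 2) + 1 / x ^ 2))
      = (1 / Real.pi) * (5 * (1 / (x + 1) ^ 2) + 1 / x ^ 2) := by
    field_simp
    ring
  rw [hb5]
  have hp1 : 1 / Real.pi ≤ 1 := by
    rw [div_le_one hp]; linarith
  have u1 : 0 < 1 / (x + 1) ^ 2 := by positivity
  have u2 : 0 < 1 / x ^ 2 := by positivity
  calc (1 / Real.pi) * (5 * (1 / (x + 1) ^ 2) + 1 / x ^ 2)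
      ≤ 1 * (5 * (1 / (x + 1) ^ 2) + 1 / x ^ 2) :=
        mul_le_mul_of_nonneg_right hp1 (by positivity)
    _ ≤ _ := by linarith

lemma summable_sq : Summable (fun l : ℤ => 1 / (l : ℝ) ^ 2) :=
  Real.summable_one_div_int_pow.2 (by norm_num)

lemma summable_sq1 : Summable (fun l : ℤ => 1 / ((l : ℝ) + 1) ^ 2) := by
  have h := (Equiv.addRight (1 : ℤ)).summable_iff.2 summable_sq
  refine h.congr fun l => ?_
  simp [Function.comp]

lemma summable_ker (δ : ℝ) (hδ : 0 < δ) : Summable (ker δ) := by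
  have hp : 0 < Real.pi := Real.pi_pos
  have h1 : Summable (fun l : ℤ => N δ l / (2 * Real.pi ^ 2 * δ * (l : ℝ) ^ 2)) := by
    refine Summable.of_norm_bounded (g := fun l : ℤ => (1 / (Real.pi ^ 2 * δ)) * (1 / (l : ℝ) ^ 2))
      (summable_sq.mul_left _) fun l => ?_
    rw [Real.norm_eq_abs, abs_div]
    have hN : |N δ l| ≤ 2 := by
      unfold N
      have a1 := Real.cos_le_one (2 * Real.pi * δ * l)
      have a2 := Real.neg_one_le_cos (2 * Real.pi * δ * l)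
      have a3 := Real.cos_le_one (4 * Real.pi * δ * l)
      have a4 := Real.neg_one_le_cos (4 * Real.pi * δ * l)
      rw [abs_le]
      constructor <;> linarith
    by_cases hl : l = 0
    · subst hl
      simp
    · have hl' : (l : ℝ) ≠ 0 := by exact_mod_cast hl
      have hl2 : 0 < (l : ℝ) ^ 2 := by positivity
      rw [abs_of_pos (show (0:ℝ) < 2 * Real.pi ^ 2 * δ * (l : ℝ) ^ 2 by positivity),
        div_le_iff₀ (by positivity)]
      calc |N δ l| ≤ 2 := hN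
        _ = _ := by field_simp
  have h2 : Summable (fun l : ℤ => if l = 0 then 3 * δ else 0) :=
    (hasSum_ite_eq (0 : ℤ) (3 * δ)).summable
  exact h1.add h2

/-- The Fourier series of `B₂`. -/
lemma hasSum_B2 (y : ℝ) (hy : |y| ≤ 1) :
    HasSum (fun n : ℤ => (1 / (n : ℂ) ^ 2) * ee (n * y))
      ((2 * Real.pi ^ 2 * (y ^ 2 - |y| + 6⁻¹) : ℝ) : ℂ) := by
  have main : ∀ x : ℝ, x ∈ Set.Icc (0 : ℝ) 1 → HasSum (fun n : ℤ => (1 / (n : ℂ) ^ 2) * ee (n * x))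
      ((2 * Real.pi ^ 2 * (x ^ 2 - x + 6⁻¹) : ℝ) : ℂ) := by
    intro x hx
    have h := hasSum_one_div_pow_mul_fourier_mul_bernoulliFun (k := 2) le_rfl hx
    have e : (fun n : ℤ => 1 / (n : ℂ) ^ 2 * fourier n (x : AddCircle (1:ℝ)))
        = fun n : ℤ => (1 / (n : ℂ) ^ 2) * ee (n * x) := by
      funext n
      congr 1
      exact fourier_eq_ee n x
    rw [e] at h
    convert h using 1
    rw [bernoulliFun_two]
    push_cast
    have : (2 * (Real.pi : ℂ) * I) ^ 2 = -(4 * Real.pi ^ 2) := by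
      rw [mul_pow, I_sq]; ring
    have f2 : ((Nat.factorial 2 : ℕ) : ℂ) = 2 := by norm_num [Nat.factorial]
    rw [this, f2]
    ring
  rcases le_or_gt 0 y with h0 | h0
  · rw [abs_of_nonneg h0] at hy ⊢
    exact main y ⟨h0, hy⟩
  · rw [abs_of_neg h0] at hy ⊢
    have h := main (y + 1) ⟨by linarith, by linarith⟩
    have e : (fun n : ℤ => (1 / (n : ℂ) ^ 2) * ee (n * (y + 1)))
        = fun n : ℤ => (1 / (n : ℂ) ^ 2) * ee (n * y) := by
      funext n
      congr 1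
      rw [mul_add, mul_one, ee_add_int]
    rw [e] at h
    convert h using 2
    ring

lemma cos_eq_ee (x : ℝ) : (Real.cos (2 * Real.pi * x) : ℂ) = (ee x + ee (-x)) / 2 := by
  unfold ee
  rw [Complex.ofReal_cos, Complex.cos]
  push_cast
  congr 2
  congr 1
  ring

lemma sym_ker (δ : ℝ) (hδ : 0 < δ) (hδ1 : δ ≤ 1 / 4) (θ : ℝ) (hθ : |θ| ≤ δ) :
    sym (fun l => (ker δ l : ℂ)) θ = 1 := by
  have hp : (Real.pi : ℂ) ≠ 0 := by exact_mod_cast Real.pi_ne_zero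
  have hδc : (δ : ℂ) ≠ 0 := by exact_mod_cast hδ.ne'
  have hθ' := abs_le.1 hθ
  have b1 : |θ + δ| ≤ 1 := by rw [abs_le]; constructor <;> linarith [hθ'.1, hθ'.2]
  have b2 : |θ - δ| ≤ 1 := by rw [abs_le]; constructor <;> linarith [hθ'.1, hθ'.2]
  have b3 : |θ + 2 * δ| ≤ 1 := by rw [abs_le]; constructor <;> linarith [hθ'.1, hθ'.2]
  have b4 : |θ - 2 * δ| ≤ 1 := by rw [abs_le]; constructor <;> linarith [hθ'.1, hθ'.2]
  have s1 := hasSum_B2 _ b1
  have s2 := hasSum_B2 _ b2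
  have s3 := hasSum_B2 _ b3
  have s4 := hasSum_B2 _ b4
  have s := (((s1.add s2).sub s3).sub s4).mul_left (1 / (4 * (Real.pi : ℂ) ^ 2 * δ))
  have t : HasSum (fun l : ℤ => if l = 0 then (3 * δ : ℂ) else 0) (3 * δ) :=
    hasSum_ite_eq (0 : ℤ) (3 * δ : ℂ)
  have u := s.add t
  have e : (fun l : ℤ => (ker δ l : ℂ) * ee (l * θ)) = fun l : ℤ =>
      (1 / (4 * (Real.pi : ℂ) ^ 2 * δ)) * ((1 / (l : ℂ) ^ 2 * ee (l * (θ + δ))
        + 1 / (l : ℂ) ^ 2 * ee (l * (θ - δ)) - 1 / (l : ℂ) ^ 2 * ee (l * (θ + 2 * δ))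
        - 1 / (l : ℂ) ^ 2 * ee (l * (θ - 2 * δ)))) + (if l = 0 then (3 * δ : ℂ) else 0) := by
    funext l
    by_cases hl : l = 0
    · subst hl
      rw [ker_zero]
      simp [ee_zero]
    · rw [ker_of_ne δ hl, if_neg hl, add_zero]
      have hlc : (l : ℂ) ≠ 0 := by exact_mod_cast hl
      have c1 : (N δ l : ℂ) = (ee (l * δ) + ee (-(l * δ))) / 2
          - (ee (l * (2 * δ)) + ee (-(l * (2 * δ)))) / 2 := by
        unfold N
        push_cast
        rw [← Complex.ofReal_intCast]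
        have d1 := cos_eq_ee (l * δ)
        have d2 := cos_eq_ee (l * (2 * δ))
        rw [Complex.ofReal_cos] at d1 d2
        push_cast at d1 d2
        push_cast
        rw [← d1, ← d2]
        congr 2 <;> ring
      push_cast
      rw [c1]
      have e1 : ee (l * (θ + δ)) = ee (l * δ) * ee (l * θ) := by rw [← ee_add]; congr 1; ring
      have e2 : ee (l * (θ - δ)) = ee (-(l * δ)) * ee (l * θ) := by rw [← ee_add]; congr 1; ring
      have e3 : ee (l * (θ + 2 * δ)) = ee (l * (2 * δ)) * ee (l * θ) := by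
        rw [← ee_add]; congr 1; ring
      have e4 : ee (l * (θ - 2 * δ)) = ee (-(l * (2 * δ))) * ee (l * θ) := by
        rw [← ee_add]; congr 1; ring
      rw [e1, e2, e3, e4]
      field_simp
      ring
  unfold sym
  rw [e, u.tsum_eq]
  have v1 : |θ + δ| = θ + δ := abs_of_nonneg (by linarith [hθ'.1])
  have v2 : |θ - δ| = δ - θ := by rw [abs_of_nonpos (by linarith [hθ'.2])]; ring
  have v3 : |θ + 2 * δ| = θ + 2 * δ := abs_of_nonneg (by linarith [hθ'.1])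
  have v4 : |θ - 2 * δ| = 2 * δ - θ := by rw [abs_of_nonpos (by linarith [hθ'.2])]; ring
  rw [v1, v2, v3, v4]
  push_cast
  field_simp
  ring

end KS

/-- BI-4 -/
theorem exists_kernel_small {η : ℝ} (hη : 0 < η) :
    ∃ δ : ℝ, 0 < δ ∧ δ < 1 / 4 ∧ ∃ a : ℤ → ℝ, Summable a ∧ (∀ l, a (-l) = a l) ∧
      (∀ θ : ℝ, |θ| ≤ δ → sym (fun l => (a l : ℂ)) θ = 1) ∧
      ∑' l : ℤ, |a (l + 1) - a l| ≤ η := by
  set d : ℕ → ℝ := fun n => 1 / ((n : ℝ) + 5) with hd
  have hd0 : ∀ n, 0 < d n := fun n => by simp only [hd]; positivity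
  have hd1 : ∀ n, d n < 1 / 4 := fun n => by
    simp only [hd]
    exact one_div_lt_one_div_of_lt (by norm_num) (by linarith [Nat.cast_nonneg (α := ℝ) n])
  have hdt : Tendsto d atTop (𝓝 0) := by
    have h := tendsto_one_div_add_atTop_nhds_zero_nat (𝕜 := ℝ)
    have h2 := (tendsto_add_atTop_iff_nat 4).2 h
    refine h2.congr fun n => ?_
    simp only [hd]
    push_cast
    congr 1
    ring
  have hlim : Tendsto (fun n => ∑' l : ℤ, |KS.ker (d n) (l + 1) - KS.ker (d n) l|) atTop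
      (𝓝 (∑' _ : ℤ, (0 : ℝ))) := by
    refine tendsto_tsum_of_dominated_convergence
      (bound := fun l : ℤ => 6 * (1 / ((l : ℝ) + 1) ^ 2) + 6 * (1 / (l : ℝ) ^ 2))
      ((KS.summable_sq1.mul_left 6).add (KS.summable_sq.mul_left 6)) (fun l => ?_)
      (Eventually.of_forall fun n l => ?_)
    · have hb : ∀ n, |KS.ker (d n) (l + 1) - KS.ker (d n) l| ≤ 6 * d n := by
        intro n
        have h1 := KS.ker_le (d n) (hd0 n) (l + 1)
        have h2 := KS.ker_le (d n) (hd0 n) l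
        rw [abs_le] at *
        constructor <;> linarith [h1.1, h1.2, h2.1, h2.2]
      have h6 : Tendsto (fun n => 6 * d n) atTop (𝓝 0) := by
        simpa using hdt.const_mul 6
      exact squeeze_zero (fun n => abs_nonneg _) hb h6
    · rw [Real.norm_eq_abs, abs_abs]
      exact KS.ker_diff (d n) (hd0 n) (by linarith [hd1 n]) l
  rw [tsum_zero] at hlim
  obtain ⟨n, hn⟩ := (hlim.eventually (gt_mem_nhds hη)).exists
  exact ⟨d n, hd0 n, hd1 n, KS.ker (d n), KS.summable_ker _ (hd0 n), KS.ker_neg _,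
    fun θ hθ => KS.sym_ker _ (hd0 n) (hd1 n).le θ hθ, hn.le⟩

end Pool.Agent.Helper57.BI
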