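import Pool.Agent.Helper94.BI.BLMul
import Pool.Agent.Helper57.BI.Sym
import Pool.Agent.Helper16.BI.Kernel

/-! Block BI-5, final form. -/

namespace Pool.Agent.Helper57.BI

/-- BI-5: product rule. -/
theorem BL_mul {r r' r'' : ℝ} (hr : 0 ≤ r) (hr' : 0 < r') (h : r + r' < r'') (h'' : r'' < 1 / 2)
    {φ γ : ℤ → ℂ} (hφ : ∃ C, ∀ n, ‖φ n‖ ≤ C) (hγ : ∃ C, ∀ n, ‖γ n‖ ≤ C)
    (h1 : BL r φ) (h2 : BL r' γ) : BL r'' (fun n => φ n * γ n) :=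
  BL_mul_of (fun ha h l => sym_inj ha h l) (fun h0 h1 h2 => exists_kernel h0 h1 h2)
    hr hr' h h'' hφ hγ h1 h2

end Pool.Agent.Helper57.BI
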